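import Pool.Agent.Helper60.FF.DefsB

set_option autoImplicit false

/-! Module RED: reduction of rational functions. -/

namespace Pool.Agent.Helper60.FF

open Polynomial

section

variable {p : ℕ} [hp : Fact p.Prime]

theorem red_norm {E : IntermediateField ℚ_[p] ℂ_[p]} {π : ℂ_[p]} {f : ℕ} (hL : LF E π f)
    {P₁ : Polynomial ℂ_[p]} (h0 : P₁ ≠ 0) (hE : ∀ j, P₁.coeff j ∈ E) :
    ∃ (s : ℤ) (P : Polynomial ℂ_[p]), Int' E P ∧ rd P ≠ 0 ∧ P₁ = C (π ^ s) * P := by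
  obtain ⟨j₀, hj₀, hmax⟩ := Finset.exists_max_image P₁.support (fun j => ‖P₁.coeff j‖)
    (Polynomial.support_nonempty.mpr h0)
  have hj0 : P₁.coeff j₀ ≠ 0 := mem_support_iff.mp hj₀
  obtain ⟨s, hs⟩ := hL.val _ (hE j₀) hj0
  have hπ : π ≠ 0 := norm_pos_iff.mp hL.pos
  have hπs : π ^ s ≠ 0 := zpow_ne_zero s hπ
  have hmax' : ∀ j, ‖P₁.coeff j‖ ≤ ‖π ^ s‖ := by
    intro j
    rw [norm_zpow, ← hs]
    by_cases hj : j ∈ P₁.support
    · exact hmax j hj
    · rw [notMem_support_iff.mp hj, norm_zero]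
      exact norm_nonneg _
  have hc : ∀ j, (C ((π ^ s)⁻¹) * P₁).coeff j = (π ^ s)⁻¹ * P₁.coeff j := fun j => coeff_C_mul P₁
  have hle : ∀ j, ‖(C ((π ^ s)⁻¹) * P₁).coeff j‖ ≤ 1 := by
    intro j
    rw [hc, norm_mul, norm_inv, inv_mul_le_iff₀ (norm_pos_iff.mpr hπs), mul_one]
    exact hmax' j
  refine ⟨s, C ((π ^ s)⁻¹) * P₁, fun j => ⟨?_, hle j⟩, ?_, ?_⟩
  · rw [hc]
    exact E.mul_mem (E.inv_mem (zpow_mem hL.mem s)) (hE j)
  · intro h
    have h1 := congrArg (fun q => q.coeff j₀) h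
    simp only [coeff_rd, coeff_zero] at h1
    rw [res_eq_zero (hle j₀), hc, norm_mul, norm_inv, norm_zpow, ← hs,
      inv_mul_cancel₀ (norm_ne_zero_iff.mpr hj0)] at h1
    exact lt_irrefl _ h1
  · rw [← mul_assoc, ← C_mul, mul_inv_cancel₀ hπs, C_1, one_mul]

theorem red_comp {E : IntermediateField ℚ_[p] ℂ_[p]} {A : Subfield ℂ_[p]} {a ϖ : A}
    (ha : (a : ℂ_[p]) ∈ E) (hϖ : (ϖ : ℂ_[p]) ∈ E) {P : Polynomial A}
    (hP : ∀ j, ((P.coeff j : A) : ℂ_[p]) ∈ E) (j : ℕ) :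
    ((P.map A.subtype).comp (C (a : ℂ_[p]) + C (ϖ : ℂ_[p]) * X)).coeff j ∈ E := by
  obtain ⟨q, hq⟩ : ∃ q : Polynomial E, q.map (algebraMap E ℂ_[p]) = P.map A.subtype := by
    have : P.map A.subtype ∈ Polynomial.lifts (algebraMap E ℂ_[p]) := by
      rw [Polynomial.lifts_iff_coeff_lifts]
      intro n
      rw [coeff_map]
      exact ⟨⟨_, hP n⟩, rfl⟩
    exact (Polynomial.mem_lifts _).mp this
  have e1 : (C (a : ℂ_[p]) + C (ϖ : ℂ_[p]) * X : Polynomial ℂ_[p]) =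
      (C (⟨a, ha⟩ : E) + C (⟨ϖ, hϖ⟩ : E) * X).map (algebraMap E ℂ_[p]) := by
    simp [Polynomial.map_add]
  rw [← hq, e1, ← Polynomial.map_comp, coeff_map]
  exact SetLike.coe_mem _

theorem red_ne {A : Subfield ℂ_[p]} (hA : IsAlgClosed A) {P : Polynomial A} (hP : P ≠ 0)
    {τ : ℂ_[p]} (hτ : τ ∉ A) : (P.map A.subtype).eval τ ≠ 0 := by
  intro h
  have h0 : P.map A.subtype ≠ 0 := (Polynomial.map_ne_zero_iff A.subtype.injective).mpr hP
  have h1 : τ ∈ (P.map A.subtype).roots := (mem_roots h0).mpr h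
  rw [(IsAlgClosed.splits P).roots_map] at h1
  obtain ⟨x, -, hx⟩ := Multiset.mem_map.mp h1
  apply hτ
  rw [← hx]
  exact x.2

end

theorem st_RED : ST_RED := by
  intro p _ A hA E π f hL a ϖ ha hϖ hϖ0 h hh hov
  obtain ⟨P₀, Q₀, hQ0, hPE, hQE, he⟩ := hov
  have hQr : algebraMap (Polynomial A) (RatFunc A) Q₀ ≠ 0 := by simpa using hQ0
  have hP0 : P₀ ≠ 0 := by
    rintro rfl
    rw [map_zero] at he
    rcases mul_eq_zero.mp he with h1 | h1
    · exact hh h1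
    · exact hQr h1
  have hϖ' : (ϖ : ℂ_[p]) ≠ 0 := by
    intro h1
    exact hϖ0 (Subtype.ext h1)
  have hcomp0 : ∀ R : Polynomial A, R ≠ 0 →
      (R.map A.subtype).comp (C (a : ℂ_[p]) + C (ϖ : ℂ_[p]) * X) ≠ 0 := by
    intro R hR h1
    rw [comp_eq_zero_iff] at h1
    rcases h1 with h1 | ⟨-, h1⟩
    · exact (Polynomial.map_ne_zero_iff A.subtype.injective).mpr hR h1
    · have := congrArg (fun q => q.coeff 1) h1
      simp [coeff_C] at this
      exact hϖ0 this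
  have heval : ∀ (R : Polynomial A) (τ : ℂ_[p]),
      ((R.map A.subtype).comp (C (a : ℂ_[p]) + C (ϖ : ℂ_[p]) * X)).eval ((τ - a) / ϖ) =
        (R.map A.subtype).eval τ := by
    intro R τ
    rw [eval_comp]
    congr 1
    simp
    field_simp
    ring
  obtain ⟨s₁, P, hP1, hP2, hP3⟩ := red_norm hL (hcomp0 P₀ hP0) (red_comp ha hϖ hPE)
  obtain ⟨s₂, Q, hQ1, hQ2, hQ3⟩ := red_norm hL (hcomp0 Q₀ hQ0) (red_comp ha hϖ hQE)
  have hπ : π ≠ 0 := norm_pos_iff.mp hL.pos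
  refine ⟨s₁ - s₂, P, Q, hP1, hQ1, hP2, hQ2, zpow_mem hL.mem _, zpow_ne_zero _ hπ, ?_⟩
  intro τ hτ
  have hPv := heval P₀ τ
  have hQv := heval Q₀ τ
  rw [hP3, eval_mul, eval_C] at hPv
  rw [hQ3, eval_mul, eval_C] at hQv
  have hPn := red_ne hA hP0 hτ
  have hQn := red_ne hA hQ0 hτ
  refine ⟨?_, ?_, ?_⟩
  · intro h0
    rw [h0, mul_zero] at hPv
    exact hPn hPv.symm
  · intro h0
    rw [h0, mul_zero] at hQv
    exact hQn hQv.symm
  · have hd := red_ne hA (RatFunc.denom_ne_zero h) hτ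
    have e1 : h.num * Q₀ = P₀ * h.denom := by
      apply RatFunc.algebraMap_injective A
      rw [map_mul, map_mul, ← he]
      have h2 : algebraMap (Polynomial A) (RatFunc A) h.denom ≠ 0 := by
        simpa using RatFunc.denom_ne_zero h
      have h3 := RatFunc.num_div_denom h
      rw [div_eq_iff h2] at h3
      rw [h3]
      ring
    have e2 := congrArg (fun q => (q.map A.subtype).eval τ) e1
    simp only [Polynomial.map_mul, eval_mul] at e2
    have e3 : ev A τ h * (h.denom.map A.subtype).eval τ = (h.num.map A.subtype).eval τ := by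
      unfold ev RatFunc.eval
      rw [eval_map, eval_map] at *
      field_simp
    have e4 : ev A τ h * (Q₀.map A.subtype).eval τ = (P₀.map A.subtype).eval τ := by
      have : (h.denom.map A.subtype).eval τ * (ev A τ h * (Q₀.map A.subtype).eval τ) =
          (h.denom.map A.subtype).eval τ * (P₀.map A.subtype).eval τ := by
        linear_combination e2 + (Q₀.map A.subtype).eval τ * e3
      exact mul_left_cancel₀ hd this
    rw [← hPv, ← hQv] at e4
    have hz2 : π ^ s₂ ≠ 0 := zpow_ne_zero _ hπ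
    rw [zpow_sub₀ hπ]
    field_simp
    linear_combination e4

end Pool.Agent.Helper60.FF
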