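import Pool.Agent.Helper24.FF.Stmts

/-! Full list for MP_866009_co, part F: ladders are diamond-free. -/

set_option autoImplicit false

namespace Pool.Agent.Helper38.FF

open Pool.Agent.Helper24.FF
open Pool.Agent.Helper64.CT Pool.Agent.Helper64.DT Pool.Agent.Helper64.FL
open Pool.Agent.Helper64.HG (Ovl Model Circ IC HellyCircle ChordModel)

variable {V : Type}

theorem ipt_nodup {G : SimpleGraph V} : ∀ M : List V, IPt G M → M.Nodup
  | [], _ => List.nodup_nil
  | a :: l, h => by
    obtain ⟨h1, -, -, h4⟩ := h
    rw [List.nodup_cons]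
    exact ⟨fun h => h1 a h rfl, ipt_nodup l h4⟩

/-- two different neighbours of a vertex of the path -/
theorem two_nb (hI : ST_IPX) {G : SimpleGraph V} {M : List V} {x y z : V} (hM : IPt G M)
    (hx : x ∈ M) (hy : y ∈ M) (hz : z ∈ M) (h1 : G.Adj x y) (h2 : G.Adj x z) (h : y ≠ z) :
    (∃ A B, M = A ++ y :: x :: z :: B) ∨ (∃ A B, M = A ++ z :: x :: y :: B) := by
  obtain ⟨A, B, rfl⟩ := List.append_of_mem hx
  have k1 := ((hI V G).2.1 A B x y hM hy).1 h1
  have k2 := ((hI V G).2.1 A B x z hM hz).1 h2
  rcases k1 with k1 | k1 <;> rcases k2 with k2 | k2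
  · exact absurd (Option.some_injective _ (k1.symm.trans k2)) h
  · left
    rw [List.getLast?_eq_some_iff] at k1
    rw [List.head?_eq_some_iff] at k2
    obtain ⟨A', rfl⟩ := k1
    obtain ⟨B', rfl⟩ := k2
    exact ⟨A', B', by simp⟩
  · right
    rw [List.getLast?_eq_some_iff] at k2
    rw [List.head?_eq_some_iff] at k1
    obtain ⟨A', rfl⟩ := k2
    obtain ⟨B', rfl⟩ := k1
    exact ⟨A', B', by simp⟩
  · exact absurd (Option.some_injective _ (k1.symm.trans k2)) h

/-- no triangle in a path -/
theorem no_tri (hI : ST_IPX) {G : SimpleGraph V} {M : List V} {x y z : V} (hM : IPt G M)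
    (hx : x ∈ M) (hy : y ∈ M) (hz : z ∈ M) (h1 : G.Adj x y) (h2 : G.Adj x z)
    (h3 : G.Adj y z) : False := by
  have key : ∀ y z : V, G.Adj y z → ∀ A B, M = A ++ y :: x :: z :: B → False := by
    intro y z h3 A B hMe
    have hn := ipt_nodup M hM
    rw [hMe] at hn hM
    have k := ((hI V G).2.1 A (x :: z :: B) y z hM (by simp)).1 h3
    rcases k with k | k
    · have hz := List.mem_of_getLast? k
      rw [List.nodup_append] at hn
      exact hn.2.2 z hz z (by simp) rfl
    · rw [List.head?_cons] at k
      have : x = z := Option.some_injective _ k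
      rw [List.nodup_append] at hn
      simp [this] at hn
  rcases two_nb hI hM hx hy hz h1 h2 h3.ne with ⟨A, B, h⟩ | ⟨A, B, h⟩
  · exact key y z h3 A B h
  · exact key z y h3.symm A B h

/-- two triangles with a hub -/
theorem hub (hI : ST_IPX) {G : SimpleGraph V} {h k : V} {M : List V} {a b : Bool}
    (L : LadM G h k M a b) (hr : 2 ≤ rungs G h k M) (u x y z : V) (hu : u = h ∨ u = k)
    (hx : x ∈ M) (hy : y ∈ M) (hz : z ∈ M) (ux : G.Adj u x) (uy : G.Adj u y) (uz : G.Adj u z)
    (h1 : G.Adj x y) (h2 : G.Adj x z) (hne : y ≠ z) : False := by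
  have hn := ipt_nodup M L.ip
  -- one of two adjacent neighbours of a hub is an end
  have hend : ∀ v w : V, v ∈ M → w ∈ M → G.Adj u v → G.Adj u w → G.Adj v w →
      M.head? ≠ some v → M.getLast? ≠ some v → M.head? ≠ some w → M.getLast? ≠ some w →
      False := by
    intro v w hv hw uv uw vw e1 e2 e3 e4
    have m1 := L.mid v hv e1 e2
    have m2 := L.mid w hw e3 e4
    rcases hu with rfl | rfl
    · exact L.ind v hv w hw vw ⟨uv, m1.1 uv, uw, m2.1 uw⟩
    · exact L.ind v hv w hw vw ⟨m1.2 uv, uv, m2.2 uw, uw⟩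
  have key : ∀ y z : V, G.Adj u y → G.Adj u z → G.Adj x y → G.Adj x z → ∀ A B,
      M = A ++ y :: x :: z :: B → False := by
    intro y z uy uz h1 h2 A B hMe
    have hyM : y ∈ M := by rw [hMe]; simp
    have hzM : z ∈ M := by rw [hMe]; simp
    rw [hMe] at hn
    have hl : M.getLast? = (z :: B).getLast? := by
      rw [hMe, List.getLast?_append_of_ne_nil _ (by simp), List.getLast?_cons_cons,
        List.getLast?_cons_cons]
    have hn2 := hn
    rw [List.nodup_append] at hn2
    obtain ⟨-, hn3, hn4⟩ := hn2
    rw [List.nodup_cons, List.nodup_cons] at hn3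
    obtain ⟨y1, x1, -⟩ := hn3
    have yl : M.getLast? ≠ some y := by
      intro h
      rw [hl] at h
      exact y1 (List.mem_cons_of_mem _ (List.mem_of_getLast? h))
    have xl : M.getLast? ≠ some x := by
      intro h
      rw [hl] at h
      exact x1 (List.mem_of_getLast? h)
    have hhd : ∀ v, v ∈ y :: x :: z :: B → M.head? = some v → A = [] := by
      intro v hv h
      cases A with
      | nil => rfl
      | cons a0 A =>
        rw [hMe, List.cons_append, List.head?_cons] at h
        have h' : a0 = v := Option.some_injective _ h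
        exact absurd h' (hn4 a0 (by simp) v hv)
    have xh : M.head? ≠ some x := by
      intro h
      have hA := hhd x (by simp) h
      rw [hMe, hA, List.nil_append, List.head?_cons] at h
      have h' : y = x := Option.some_injective _ h
      exact h1.ne h'.symm
    have zh : M.head? ≠ some z := by
      intro h
      have hA := hhd z (by simp) h
      rw [hMe, hA, List.nil_append, List.head?_cons] at h
      have h' : y = z := Option.some_injective _ h
      exact y1 (by rw [h']; simp)
    have hA : A = [] := by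
      by_contra hA
      exact hend x y hx hyM ux uy h1 xh xl (fun h => hA (hhd y (by simp) h)) yl
    have hB : B = [] := by
      by_contra hB
      refine hend x z hx hzM ux uz h2 xh xl zh ?_
      intro h
      rw [hl] at h
      cases B with
      | nil => exact hB rfl
      | cons b0 B =>
        rw [List.getLast?_cons_cons] at h
        have h' := List.mem_of_getLast? h
        rw [List.nodup_append] at hn
        obtain ⟨-, hn5, -⟩ := hn
        rw [List.nodup_cons, List.nodup_cons, List.nodup_cons] at hn5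
        exact hn5.2.2.1 h'
    rw [hA, hB, List.nil_append] at hMe
    have f1 := L.fst y (by rw [hMe]; simp)
    have f2 := L.lst z (by rw [hMe]; simp)
    have g1 : ¬ (G.Adj h y ∧ G.Adj k y) := by
      rintro ⟨p, q⟩
      have e1 := f1.1.1 p
      have e2 := f1.2.1 q
      rw [e1] at e2
      exact absurd e2 (by decide)
    have g2 : ¬ (G.Adj h z ∧ G.Adj k z) := by
      rintro ⟨p, q⟩
      have e1 := f2.1.1 p
      have e2 := f2.2.1 q
      rw [e1] at e2
      exact absurd e2 (by decide)
    rw [hMe] at hr
    unfold rungs at hr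
    rw [List.filter_cons_of_neg (by simpa using g1)] at hr
    by_cases g3 : G.Adj h x ∧ G.Adj k x
    · rw [List.filter_cons_of_pos (by simpa using g3),
        List.filter_cons_of_neg (by simpa using g2)] at hr
      simp at hr
    · rw [List.filter_cons_of_neg (by simpa using g3),
        List.filter_cons_of_neg (by simpa using g2)] at hr
      simp at hr
  rcases two_nb hI L.ip hx hy hz h1 h2 hne with ⟨A, B, h⟩ | ⟨A, B, h⟩
  · exact key y z uy uz h1 h2 A B h
  · exact key z y uz uy h2 h1 A B h

/-- the main part -/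
theorem lad_df (hI : ST_IPX) {G : SimpleGraph V} {h k : V} {M : List V} {a b : Bool}
    (L : LadM G h k M a b) (hr : 2 ≤ rungs G h k M)
    (cov : ∀ x, (∀ y, G.Adj x y → y = h ∨ y = k) ∨ x = h ∨ x = k ∨ x ∈ M) : DF G := by
  have hk : ∀ v w, (v = h ∨ v = k) → (w = h ∨ w = k) → ¬ G.Adj v w := by
    rintro v w (rfl | rfl) (rfl | rfl) hvw
    · exact G.loopless.irrefl _ hvw
    · exact L.nadj hvw
    · exact L.nadj hvw.symm
    · exact G.loopless.irrefl _ hvw
  have cov' : ∀ x y z, G.Adj x y → G.Adj x z → G.Adj y z → (x = h ∨ x = k) ∨ x ∈ M := by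
    intro x y z h1 h2 h3
    rcases cov x with h | h | h | h
    · exact absurd h3 (hk y z (h y h1) (h z h2))
    · exact Or.inl (Or.inl h)
    · exact Or.inl (Or.inr h)
    · exact Or.inr h
  intro p q r s pq pr qr ps qs rs
  exfalso
  have cp := cov' p q r pq pr qr
  have cq := cov' q p r pq.symm qr pr
  have cr := cov' r p q pr.symm qr.symm pq
  have cs := cov' s p q ps.symm qs.symm pq
  rcases cp with cp | cp
  · have q1 : q ∈ M := cq.resolve_left fun h => hk p q cp h pq
    have r1 : r ∈ M := cr.resolve_left fun h => hk p r cp h pr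
    have s1 : s ∈ M := cs.resolve_left fun h => hk p s cp h ps
    exact hub hI L hr p q r s cp q1 r1 s1 pq pr ps qr qs rs
  · rcases cq with cq | cq
    · have r1 : r ∈ M := cr.resolve_left fun h => hk q r cq h qr
      have s1 : s ∈ M := cs.resolve_left fun h => hk q s cq h qs
      exact hub hI L hr q p r s cq cp r1 s1 pq.symm qr qs pr ps rs
    · rcases cr with cr | cr
      · rcases cs with cs | cs
        · rcases cr with rfl | rfl <;> rcases cs with rfl | rfl
          · exact rs rfl
          · exact L.ind p cp q cq pq ⟨pr.symm, ps.symm, qr.symm, qs.symm⟩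
          · exact L.ind p cp q cq pq ⟨ps.symm, pr.symm, qs.symm, qr.symm⟩
          · exact rs rfl
        · exact no_tri hI L.ip cp cq cs pq ps qs
      · exact no_tri hI L.ip cp cq cr pq pr qr

theorem st_LDF (hI : ST_IPX) : ST_LDF := by
  rintro V G (⟨h, k, M, a, b, L, cov, hr⟩ | ⟨c, h, k, M, a, b, L, cov, hc, hcn, hr⟩)
  · refine lad_df hI L ?_ (fun x => Or.inr (cov x))
    rcases hr with ⟨-, -, h⟩ | ⟨-, -, h⟩ | ⟨-, h, -⟩ <;> omega
  · refine lad_df hI L ?_ (fun x => ?_)
    · rcases hr with ⟨-, -, h⟩ | ⟨-, -, h⟩ | ⟨-, h, -⟩ <;> omega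
    · rcases cov x with rfl | h
      · exact Or.inl fun y hy => (hcn y).1 hy
      · exact Or.inr h

end Pool.Agent.Helper38.FF

namespace Pool.Agent.Helper24.FF

theorem st_LDF (h1 : ST_IPX) : ST_LDF := Pool.Agent.Helper38.FF.st_LDF h1

end Pool.Agent.Helper24.FF
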