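import Pool.Agent.Helper24.FF.Stmts
import Pool.Agent.Helper38.FL.DJ1

/-! Full list for MP_866009_co, part F: rings with an odd number of links are minimal. -/

set_option autoImplicit false

namespace Pool.Agent.Helper38.FF

open Pool.Agent.Helper24.FF Pool.Agent.Helper38.FL
open Pool.Agent.Helper64.CT Pool.Agent.Helper64.DT Pool.Agent.Helper64.FL
open Pool.Agent.Helper64.HG (Ovl Model Circ IC HellyCircle ChordModel)

variable {V : Type}

theorem ring_link {G : SimpleGraph V} {m : ℕ} {n : ℕ → V} {P : ℕ → List V} (R : Ring G m n P)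
    {i : ℕ} (hi : i < m) : IPt G (n i :: P i) := by
  refine ⟨fun x hx => (R.dis i i hi hi x hx).symm, fun b hb => ?_, fun x hx hA => ?_, R.pth i hi⟩
  · exact (R.fst i hi b (List.mem_of_head? hb)).2 hb
  · have h := (R.fst i hi x (List.mem_of_mem_tail hx)).1 hA
    have hp := R.pth i hi
    cases hP : P i with
    | nil => rw [hP] at hx; exact absurd hx (List.not_mem_nil)
    | cons a l =>
      rw [hP] at hx h hp
      have hp' : (∀ x ∈ l, a ≠ x) ∧ (∀ b ∈ l.head?, G.Adj a b) ∧
        (∀ x ∈ l.tail, ¬ G.Adj a x) ∧ IPt G l := hp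
      exact hp'.1 x hx (Option.some_injective _ h)

theorem ring_ne {G : SimpleGraph V} {m : ℕ} {n : ℕ → V} {P : ℕ → List V} (R : Ring G m n P)
    {i j : ℕ} (hi : i < m) (hj : j < m) (h : n i = n j) : i = j := by
  by_contra hne
  exact (R.clq i j hi hj hne).ne h

theorem st_ROM (hRBR : ST_RBR) (hRCH : ST_RCH) (hRLK : ST_RLK) (hR3 : ST_R3) (hCEC : ST_CEC)
    : ST_ROM := by
  rintro V G ⟨c, m, n, P, R, hodd, hc, hcn, cov⟩ z
  have hm3 := R.m3
  by_cases hzc : z = c
  · subst hzc
    have hm1 : m - 1 < m := by omega
    have hmm : (m - 1 + 1) % m = 0 := by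
      rw [Nat.sub_add_cancel (by omega), Nat.mod_self]
    have hr := hRCH V G m n P R (m - 1) hm1
    have hev : decide (Even (m - 1)) = true := by
      rw [decide_eq_true_iff]
      exact Nat.Odd.sub_odd hodd (by decide)
    rw [hev] at hr
    -- the last link
    have hlen := R.len (m - 1) hm1
    obtain ⟨A, w, x, hP⟩ : ∃ A w x, P (m - 1) = (A ++ [w]) ++ [x] := by
      rcases List.eq_nil_or_concat (P (m - 1)) with h | ⟨B, x, h⟩
      · rw [h] at hlen
        simp at hlen
      · rcases List.eq_nil_or_concat B with h' | ⟨A, w, h'⟩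
        · rw [h, h'] at hlen
          simp at hlen
        · refine ⟨A, w, x, ?_⟩
          rw [h, h', List.concat_eq_append, List.concat_eq_append]
    have hxP : x ∈ P (m - 1) := by rw [hP]; simp
    have hwP : w ∈ P (m - 1) := by rw [hP]; simp
    have hAP : ∀ y ∈ A ++ [w], y ∈ P (m - 1) := by
      intro y hy
      rw [hP]
      exact List.mem_append_left _ hy
    have hlk := ring_link R hm1
    rw [hP] at hlk
    rw [← List.cons_append] at hlk
    obtain ⟨i1, -, i3⟩ := ipt_app _ _ hlk
    have hlast : (n (m - 1) :: (A ++ [w])).getLast? = some w := by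
      rw [← List.cons_append, List.getLast?_append_of_ne_nil _ (by simp)]
      rfl
    have hlastx : (P (m - 1)).getLast? = some x := by
      rw [hP]
      simp
    have hnw : ∀ j, j < m → n j ≠ w := fun j hj => (R.dis (m - 1) j hm1 hj w hwP).symm
    have hnx : ∀ j, j < m → n j ≠ x := fun j hj => (R.dis (m - 1) j hm1 hj x hxP).symm
    have hxA : ∀ y ∈ A ++ [w], y ≠ x ∧ (G.Adj y x ↔ y = w) := by
      intro y hy
      have := i3 y (List.mem_cons_of_mem _ hy) x (by simp)
      rw [hlast] at this
      refine ⟨this.1, ?_⟩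
      rw [this.2]
      constructor
      · rintro ⟨h, -⟩
        exact (Option.some_injective _ h).symm
      · rintro rfl
        exact ⟨rfl, rfl⟩
    have hlk2 := hRLK V G _ _ (n 0) (n (m - 1)) w true (A ++ [w]) hr i1 ?_ ?_ hlast
    · refine hCEC V G G _ {v | v ≠ z} (hR3.2 V G _ _ (n 0) w x hlk2 (hnw 0 (by omega)).symm ?_ ?_)
        ?_ (fun _ _ _ _ _ => Iff.rfl)
      · rintro ((⟨i, hi, h⟩ | ⟨i, hi, h⟩) | h)
        · exact hnx i (by omega) h.symm
        · exact (R.sep i (m - 1) (by omega) hm1 (by omega) x h x hxP).1 rfl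
        · exact (hxA x h).1 rfl
      · rintro y ((⟨i, hi, rfl⟩ | ⟨i, hi, h⟩) | h)
        · have h1 : ¬ n i = w := hnw i (by omega)
          rcases Nat.eq_zero_or_pos i with rfl | hi0
          · have h2 := (R.lst (m - 1) hm1 x hxP).2 hlastx
            rw [hmm] at h2
            exact ⟨fun _ => Or.inr rfl, fun _ => h2.symm⟩
          · have h3 : ¬ n i = n 0 := fun h => by
              have := ring_ne R (by omega) (by omega) h
              omega
            have h4 : ¬ G.Adj x (n i) := by
              rcases Nat.lt_or_ge i (m - 1) with hlt | hge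
              · intro h
                exact R.cln (m - 1) i hm1 (by omega) (by omega) (by rw [hmm]; omega) x hxP h.symm
              · have : i = m - 1 := by omega
                intro h
                rw [this] at h
                have h5 := (i3 (n (m - 1)) (by simp) x (by simp)).2.1 h.symm
                rw [hlast] at h5
                exact hnw (m - 1) hm1 (Option.some_injective _ h5.1).symm
            exact ⟨fun h => absurd h h4, fun h => (h.elim h1 h3).elim⟩
        · have h1 := R.sep i (m - 1) (by omega) hm1 (by omega) y h x hxP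
          have h2 := R.sep i (m - 1) (by omega) hm1 (by omega) y h w hwP
          have h3 := R.dis i 0 (by omega) (by omega) y h
          exact ⟨fun h => absurd h.symm h1.2, fun h => (h.elim h2.1 h3).elim⟩
        · have h1 := hxA y h
          have h3 := R.dis (m - 1) 0 (by omega) (by omega) y (hAP y h)
          constructor
          · intro h
            exact Or.inl (h1.2.1 h.symm)
          · rintro (h | h)
            · exact (h1.2.2 h).symm
            · exact absurd h h3
      · intro y hy
        rcases cov y with h | ⟨i, hi, h⟩ | ⟨i, hi, h⟩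
        · exact absurd h hy
        · exact Or.inr (Or.inl (Or.inl ⟨i, by omega, h⟩))
        · rcases Nat.lt_or_ge i (m - 1) with hlt | hge
          · exact Or.inr (Or.inl (Or.inr ⟨i, hlt, h⟩))
          · have : i = m - 1 := by omega
            rw [this, hP, List.mem_append, List.mem_singleton] at h
            rcases h with h | h
            · exact Or.inr (Or.inr h)
            · exact Or.inl h
    · rintro y hy (⟨i, hi, h⟩ | ⟨i, hi, h⟩)
      · exact R.dis (m - 1) i hm1 (by omega) y (hAP y hy) h
      · exact (R.sep i (m - 1) (by omega) hm1 (by omega) y h y (hAP y hy)).1 rfl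
    · rintro y hy v (⟨i, hi, rfl⟩ | ⟨i, hi, h⟩) hv hadj
      · have hne : i ≠ m - 1 := fun h => hv (by rw [h])
        rcases Nat.eq_zero_or_pos i with rfl | hi0
        · have h2 := R.lst (m - 1) hm1 y (hAP y hy)
          rw [hmm, hlastx] at h2
          exact (hxA y hy).1 (Option.some_injective _ (h2.1 hadj.symm)).symm
        · exact R.cln (m - 1) i hm1 (by omega) hne (by rw [hmm]; omega) y (hAP y hy) hadj.symm
      · exact (R.sep i (m - 1) (by omega) hm1 (by omega) v h y (hAP y hy)).2 hadj.symm
  · have hz : (∃ i, i < m ∧ z = n i) ∨ ∃ i, i < m ∧ z ∈ P i := (cov z).resolve_left hzc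
    have key := hRBR V G m n P z {c} R
      (by rintro a ha b hb; rw [Set.mem_singleton_iff] at ha hb; rw [ha, hb])
      (by
        rintro a ha
        rw [Set.mem_singleton_iff] at ha
        subst ha
        exact ⟨fun h => hzc h.symm, hc, hcn⟩) hz
    refine hCEC V G G _ _ key ?_ (fun _ _ _ _ _ => Iff.rfl)
    intro y hy
    refine ⟨hy, ?_⟩
    rcases cov y with h | h | h
    · exact Or.inl h
    · exact Or.inr (Or.inl h)
    · exact Or.inr (Or.inr h)

end Pool.Agent.Helper38.FF

namespace Pool.Agent.Helper24.FF

theorem st_ROM (h1 : ST_RBR) (h2 : ST_RCH) (h3 : ST_RLK) (h4 : ST_R3) (h5 : ST_CEC) : ST_ROM :=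
  Pool.Agent.Helper38.FF.st_ROM h1 h2 h3 h4 h5

end Pool.Agent.Helper24.FF
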